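import Mathlib
import Pool.Agent.H11R3.Haight.Stage

set_option autoImplicit false

/-!
# A negative answer to Haight's question

For a measurable `E ⊆ (0, ∞)` of positive measure let `F(E)` be the union of the dilates `r E`,
`r = 1, 2, 3, …`.  Haight asked whether for almost every `x > 0` all large integer multiples of `x`
lie in `F(E)`.  We show that this fails badly: there are measurable sets `E` filling `[16, 32)` up to
a set of arbitrarily small measure such that for almost every `x` in `(0, 2)` infinitely many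
positive integers `n` satisfy `n x ∉ F(E)`.

Idea.  Put `D = (Z - 1)!` and let `B` be the set of divisors of `D ^ M`, `M` large.  Division by an
integer `r < Z` maps `B` into the set `{n / D : n ∣ D ^ (M + 1)}`, which has at most `2 |B|`
elements, while the quotients `b / p` by the primes `p` in `[Z, 2 Z)` are all different.  Let `A`
be the part of `B` in a suitable dyadic window (rescaled to `[Z / 2, Z)`), and let `U` be a union of
tiny dilated copies of `A`.  A point of `U / r` lies in `[16, 32)` only if `r < Z`, so these points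
fill a set of measure `O (|A| w)`, where `w` is the measure of the set of dilation factors, while
the points of `U / p` fill almost all of `[1, 2)` already if `|A| |P| w` is a large constant, where
`|P|` is the number of primes in `[Z, 2 Z)`, which can be arbitrarily large.
-/

namespace Pool.Agent.Results.MP_bfec62_an.HaightNegative

open MeasureTheory Set
open scoped ENNReal

/-- `F(E)`: the union of the dilates `r E` over all positive integers `r`. -/
def dilates (E : Set ℝ) : Set ℝ := {y | ∃ r : ℕ, 0 < r ∧ ∃ x ∈ E, y = r * x}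

/-- For every `ε > 0` there are a Borel set `E ⊆ [16, 32)` with `λ([16, 32) \ E) ≤ ε` and a Borel
set `X` of full measure in `(0, 2)` such that for every `x ∈ X` there are infinitely many positive
integers `n` with `n x ∉ F(E)`. -/
theorem result (ε : ℝ) (hε : 0 < ε) :
    ∃ E X : Set ℝ, MeasurableSet E ∧ MeasurableSet X ∧ E ⊆ Ico 16 32 ∧ X ⊆ Ioo 0 2 ∧
      volume (Ico (16 : ℝ) 32 \ E) ≤ ENNReal.ofReal ε ∧ volume (Ioo (0 : ℝ) 2 \ X) = 0 ∧
      ∀ x ∈ X, {n : ℕ | 0 < n ∧ (n : ℝ) * x ∉ dilates E}.Infinite := by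
  have hst : ∀ k : ℕ, ∃ X T U : Set ℝ, MeasurableSet X ∧ MeasurableSet T ∧ X ⊆ Ico 1 2 ∧
      volume.real (Ico (1 : ℝ) 2 \ X) ≤ 1 / 2 ^ k ∧
      volume T ≤ ENNReal.ofReal (ε / 2 / 2 ^ k) ∧
      (∀ x ∈ X, ∃ n : ℕ, k ≤ n ∧ 0 < n ∧ (n : ℝ) * x ∈ U) ∧
      (∀ y ∈ Ico (16 : ℝ) 32, ∀ r : ℕ, 0 < r → (r : ℝ) * y ∈ U → y ∈ T) := fun k =>
    Pool.Agent.H11R3.Haight.stage (ε / 2 / 2 ^ k) (1 / 2 ^ k) (by positivity) (by positivity) k
  choose X T U hXm hTm hX12 hXv hTv hXU hUT using hst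
  set E : Set ℝ := Ico 16 32 \ ⋃ k, T k with hE
  have hEm : MeasurableSet E := measurableSet_Ico.diff (MeasurableSet.iUnion hTm)
  set X0 : Set ℝ := ⋂ n, ⋃ k, X (n + k) with hX0
  have hX0m : MeasurableSet X0 :=
    MeasurableSet.iInter fun n => MeasurableSet.iUnion fun k => hXm (n + k)
  -- the points of `X0`
  have hX0inf : ∀ x ∈ X0, ∀ N : ℕ, ∃ n : ℕ, N ≤ n ∧ 0 < n ∧ (n : ℝ) * x ∉ dilates E := by
    intro x hx N
    obtain ⟨k, hk⟩ := Set.mem_iUnion.1 (Set.mem_iInter.1 hx N)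
    obtain ⟨n, hn1, hn0, hn2⟩ := hXU _ x hk
    refine ⟨n, by omega, hn0, ?_⟩
    rintro ⟨r, hr, e, he, hne⟩
    rw [hne] at hn2
    exact he.2 (Set.mem_iUnion.2 ⟨_, hUT _ e he.1 r hr hn2⟩)
  -- `X0` has full measure in `[1, 2)`
  have hX0null : volume (Ico (1 : ℝ) 2 \ X0) = 0 := by
    have hsub : Ico (1 : ℝ) 2 \ X0 ⊆ ⋃ n, (Ico (1 : ℝ) 2 \ ⋃ k, X (n + k)) := by
      rintro x ⟨hx1, hx2⟩
      rw [hX0, Set.mem_iInter] at hx2
      push Not at hx2
      obtain ⟨n, hn⟩ := hx2
      exact Set.mem_iUnion.2 ⟨n, hx1, hn⟩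
    refine measure_mono_null hsub (measure_iUnion_null fun n => ?_)
    have hfin : volume (Ico (1 : ℝ) 2 \ ⋃ k, X (n + k)) ≠ ∞ :=
      ne_top_of_le_ne_top (by rw [Real.volume_Ico]; exact ENNReal.ofReal_ne_top)
        (measure_mono sdiff_subset)
    have hle : ∀ k : ℕ, volume.real (Ico (1 : ℝ) 2 \ ⋃ k, X (n + k)) ≤ (1 / 2) ^ k := by
      intro k
      have h1 : volume.real (Ico (1 : ℝ) 2 \ ⋃ k, X (n + k)) ≤
          volume.real (Ico (1 : ℝ) 2 \ X (n + k)) := by
        apply measureReal_mono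
        · exact sdiff_subset_sdiff_right (Set.subset_iUnion (fun k => X (n + k)) k)
        · exact ne_top_of_le_ne_top (by rw [Real.volume_Ico]; exact ENNReal.ofReal_ne_top)
            (measure_mono sdiff_subset)
      refine h1.trans ((hXv (n + k)).trans ?_)
      rw [one_div_pow]
      apply one_div_le_one_div_of_le (by positivity)
      exact pow_le_pow_right₀ (by norm_num) (by omega)
    have hlim : Filter.Tendsto (fun k : ℕ => ((1 : ℝ) / 2) ^ k) Filter.atTop (nhds 0) :=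
      tendsto_pow_atTop_nhds_zero_of_lt_one (by norm_num) (by norm_num)
    have h0 : volume.real (Ico (1 : ℝ) 2 \ ⋃ k, X (n + k)) ≤ 0 :=
      ge_of_tendsto' hlim hle
    exact (measureReal_eq_zero_iff hfin).1 (le_antisymm h0 measureReal_nonneg)
  -- pass to all points of `(0, 2)` with a multiple in `X0`
  refine ⟨E, Ioo 0 2 ∩ ⋃ m : ℕ, (fun x : ℝ => ((m + 1 : ℕ) : ℝ) * x) ⁻¹' X0, hEm, ?_,
    sdiff_subset, inter_subset_left, ?_, ?_, ?_⟩
  · refine measurableSet_Ioo.inter (MeasurableSet.iUnion fun m => ?_)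
    exact (measurable_const_mul _) hX0m
  · have hsub : Ico (16 : ℝ) 32 \ E ⊆ ⋃ k, T k := by
      rintro x ⟨hx1, hx2⟩
      by_contra hc
      exact hx2 ⟨hx1, hc⟩
    refine (measure_mono hsub).trans ((measure_iUnion_le _).trans ?_)
    calc ∑' k, volume (T k) ≤ ∑' k : ℕ, ENNReal.ofReal (ε / 2 / 2 ^ k) :=
          ENNReal.tsum_le_tsum hTv
      _ = ENNReal.ofReal (∑' k : ℕ, ε / 2 / 2 ^ k) := by
          rw [ENNReal.ofReal_tsum_of_nonneg]
          · intro k; positivity
          · exact summable_geometric_two' ε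
      _ = ENNReal.ofReal ε := by rw [tsum_geometric_two' ε]
  · have hsub : Ioo (0 : ℝ) 2 \ (Ioo 0 2 ∩ ⋃ m : ℕ, (fun x : ℝ => ((m + 1 : ℕ) : ℝ) * x) ⁻¹' X0) ⊆
        ⋃ m : ℕ, (fun x : ℝ => ((m + 1 : ℕ) : ℝ) * x) ⁻¹' (Ico (1 : ℝ) 2 \ X0) := by
      rintro x ⟨hx1, hx2⟩
      have hx3 : ∀ m : ℕ, ((m + 1 : ℕ) : ℝ) * x ∉ X0 := by
        intro m hm
        exact hx2 ⟨hx1, Set.mem_iUnion.2 ⟨m, hm⟩⟩
      obtain ⟨h0, h2⟩ := hx1
      obtain ⟨m, hm1, hm2⟩ : ∃ m : ℕ, 1 ≤ ((m + 1 : ℕ) : ℝ) * x ∧ ((m + 1 : ℕ) : ℝ) * x < 2 := by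
        rcases le_or_gt 1 x with h | h
        · exact ⟨0, by norm_num; exact h, by norm_num; exact h2⟩
        · have hpos : 0 < 1 / x := by positivity
          have hc : 0 < ⌈1 / x⌉₊ := Nat.ceil_pos.2 hpos
          refine ⟨⌈1 / x⌉₊ - 1, ?_, ?_⟩
          · rw [Nat.sub_add_cancel hc]
            have := Nat.le_ceil (1 / x)
            rwa [div_le_iff₀ h0] at this
          · rw [Nat.sub_add_cancel hc]
            have h5 := Nat.ceil_lt_add_one hpos.le
            have h6 : (⌈1 / x⌉₊ : ℝ) * x < (1 / x + 1) * x := mul_lt_mul_of_pos_right h5 h0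
            have h7 : (1 / x + 1) * x = 1 + x := by field_simp
            linarith
      exact Set.mem_iUnion.2 ⟨m, ⟨hm1, hm2⟩, hx3 m⟩
    refine measure_mono_null hsub (measure_iUnion_null fun m => ?_)
    rw [Real.volume_preimage_mul_left (by positivity), hX0null, mul_zero]
  · rintro x ⟨-, hx⟩
    obtain ⟨m, hm⟩ := Set.mem_iUnion.1 hx
    rw [Set.infinite_iff_exists_gt]
    intro a
    obtain ⟨n, hn1, hn0, hn2⟩ := hX0inf _ hm (a + 1)
    refine ⟨n * (m + 1), ⟨by positivity, ?_⟩, ?_⟩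
    · have : ((n * (m + 1) : ℕ) : ℝ) * x = (n : ℝ) * (((m + 1 : ℕ) : ℝ) * x) := by
        push_cast; ring
      rw [this]
      exact hn2
    · nlinarith

end Pool.Agent.Results.MP_bfec62_an.HaightNegative
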